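import Pool.Agent.MP_db5b97_nt.H31.SpecG

/-! Minimal degree of a primitive group that is not doubly transitive. -/

namespace Pool.Agent.MP_db5b97_nt.H86

open MulAction Finset Pool.Agent.MP_db5b97_nt.H31

section
variable (G : Type) {X : Type} [Group G] [MulAction G X] [Fintype X]

open Classical in
/-- the points whose stabiliser does not send `x` to `y` -/
noncomputable def sep (x y : X) : Finset X :=
  univ.filter fun z => ¬ ∃ g : G, g • x = y ∧ g • z = z

/-- invariant graphs -/
def Inv (Γ : SimpleGraph X) : Prop := ∀ (g : G) (x y : X), Γ.Adj x y → Γ.Adj (g • x) (g • y)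

/-- the orbit of a pair -/
def Orb (a b x y : X) : Prop := ∃ g : G, g • a = x ∧ g • b = y

open Classical in
/-- a section of a relation -/
noncomputable def sec (P : X → Prop) : Finset X := univ.filter P

end

variable {G X : Type} [Group G] [MulAction G X] [Fintype X]

theorem mem_sep {x y z : X} : z ∈ sep G x y ↔ ¬ ∃ g : G, g • x = y ∧ g • z = z := by
  simp [sep]

theorem mem_sec {P : X → Prop} {z : X} : z ∈ sec P ↔ P z := by
  simp [sec]

omit [Fintype X] in
theorem card_le_smul (g : G) (S T : Finset X) (h : ∀ z ∈ S, g • z ∈ T) : S.card ≤ T.card :=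
  card_le_card_of_injOn (fun z => g • z) h (MulAction.injective g).injOn

theorem sep_self (x : X) : (sep G x x).card = 0 := by
  rw [card_eq_zero, eq_empty_iff_forall_notMem]
  intro z hz
  exact mem_sep.1 hz ⟨1, one_smul _ _, one_smul _ _⟩

theorem sep_symm (x y : X) : sep G x y = sep G y x := by
  have h : ∀ x y : X, sep G x y ⊆ sep G y x := by
    intro x y z hz
    rw [mem_sep] at hz ⊢
    rintro ⟨g, h1, h2⟩
    exact hz ⟨g⁻¹, by rw [← h1, inv_smul_smul], by rw [inv_smul_eq_iff, h2]⟩
  exact Subset.antisymm (h x y) (h y x)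

theorem sep_tri (x y w : X) : (sep G x w).card ≤ (sep G x y).card + (sep G y w).card := by
  classical
  refine le_trans (card_le_card ?_) (card_union_le _ _)
  intro z hz
  rw [mem_union]
  by_contra hc
  rw [not_or, mem_sep, mem_sep, not_not, not_not] at hc
  obtain ⟨⟨g, h1, h2⟩, ⟨g', h3, h4⟩⟩ := hc
  exact mem_sep.1 hz ⟨g' * g, by rw [mul_smul, h1, h3], by rw [mul_smul, h2, h4]⟩

theorem sep_orb {a b x y : X} (h : Orb G a b x y) : (sep G x y).card ≤ (sep G a b).card := by
  obtain ⟨g, rfl, rfl⟩ := h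
  refine card_le_smul g⁻¹ _ _ ?_
  intro z hz
  rw [mem_sep] at hz ⊢
  rintro ⟨k, h1, h2⟩
  refine hz ⟨g * k * g⁻¹, ?_, ?_⟩
  · rw [mul_smul, mul_smul, inv_smul_smul, h1]
  · rw [mul_smul, mul_smul, h2, smul_inv_smul]

omit [Fintype X] in
theorem Orb.smul {a b x y : X} (h : Orb G a b x y) (g : G) : Orb G a b (g • x) (g • y) := by
  obtain ⟨k, rfl, rfl⟩ := h
  exact ⟨g * k, mul_smul _ _ _, mul_smul _ _ _⟩

omit [Fintype X] in
theorem Orb.symm {a b x y : X} (h : Orb G a b x y) : Orb G x y a b := by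
  obtain ⟨k, rfl, rfl⟩ := h
  exact ⟨k⁻¹, inv_smul_smul _ _, inv_smul_smul _ _⟩

omit [Fintype X] in
theorem Orb.trans {a b x y u v : X} (h : Orb G a b x y) (h' : Orb G x y u v) : Orb G a b u v := by
  obtain ⟨k, rfl, rfl⟩ := h'
  exact h.smul k

omit [Fintype X] in
theorem Orb.swap {a b x y : X} (h : Orb G a b x y) : Orb G b a y x := by
  obtain ⟨k, h1, h2⟩ := h
  exact ⟨k, h2, h1⟩

omit [Fintype X] in
theorem Orb.ne {a b x y : X} (h : Orb G a b x y) (hab : a ≠ b) : x ≠ y := by
  obtain ⟨k, rfl, rfl⟩ := h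
  exact fun e => hab (MulAction.injective k e)

/-- translation as a graph map -/
def Inv.hom {Γ : SimpleGraph X} (h : Inv G Γ) (g : G) : Γ →g Γ :=
  ⟨fun x => g • x, fun e => h g _ _ e⟩

omit [Fintype X] in
theorem Inv.reach {Γ : SimpleGraph X} (h : Inv G Γ) (g : G) {x y : X} (r : Γ.Reachable x y) :
    Γ.Reachable (g • x) (g • y) := r.map (h.hom g)

omit [Fintype X] in
theorem Inv.conn {Γ : SimpleGraph X} (h : Inv G Γ) (hp : IsPreprimitive G X) {a b : X}
    (e : Γ.Adj a b) : Γ.Connected := by
  have hB : IsBlock G {y | Γ.Reachable a y} := by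
    rw [isBlock_iff_smul_eq_of_mem]
    intro g c hc hgc
    have hc : Γ.Reachable a c := hc
    have hgc : Γ.Reachable a (g • c) := hgc
    have hga : Γ.Reachable a (g • a) := hgc.trans (h.reach g hc).symm
    ext y
    rw [Set.mem_smul_set_iff_inv_smul_mem]
    constructor
    · intro hy
      have := h.reach g (show Γ.Reachable a (g⁻¹ • y) from hy)
      rw [smul_inv_smul] at this
      exact hga.trans this
    · intro hy
      have := h.reach g⁻¹ (hga.symm.trans (show Γ.Reachable a y from hy))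
      rw [inv_smul_smul] at this
      exact this
  have : Nonempty X := ⟨a⟩
  rcases hp.isTrivialBlock_of_isBlock hB with h1 | h1
  · exact absurd (h1 (SimpleGraph.Reachable.refl a) e.reachable) e.ne
  · refine SimpleGraph.Connected.mk fun u v => ?_
    have hu : u ∈ {y | Γ.Reachable a y} := h1 ▸ Set.mem_univ u
    have hv : v ∈ {y | Γ.Reachable a y} := h1 ▸ Set.mem_univ v
    exact (show Γ.Reachable a u from hu).symm.trans hv

omit [Fintype X] in
theorem Inv.dist_le {Γ : SimpleGraph X} (h : Inv G Γ) (hc : Γ.Connected) {a b x y : X}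
    (o : Orb G a b x y) : Γ.dist x y ≤ Γ.dist a b := by
  obtain ⟨g, rfl, rfl⟩ := o
  obtain ⟨p, hp⟩ := hc.exists_walk_length_eq_dist a b
  have := SimpleGraph.dist_le (p.map (h.hom g))
  rw [SimpleGraph.Walk.length_map, hp] at this
  exact this

omit [Fintype X] in
theorem Inv.dist_eq {Γ : SimpleGraph X} (h : Inv G Γ) (hc : Γ.Connected) {a b x y : X}
    (o : Orb G a b x y) : Γ.dist x y = Γ.dist a b :=
  le_antisymm (h.dist_le hc o) (h.dist_le hc o.symm)

theorem Inv.deg {Γ : SimpleGraph X} (h : Inv G Γ) [IsPretransitive G X] (u v : X) :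
    (sec (Γ.Adj u)).card ≤ (sec (Γ.Adj v)).card := by
  obtain ⟨g, rfl⟩ := exists_smul_eq G u v
  exact card_le_smul g _ _ fun z hz => mem_sec.2 (h g _ _ (mem_sec.1 hz))

omit [Fintype X] in
theorem adj_dist {Γ : SimpleGraph X} (hc : Γ.Connected) {u v : X} (e : Γ.Adj u v) (c : X) :
    Γ.dist u c ≤ Γ.dist v c + 1 := by
  have h1 := hc.dist_triangle (u := u) (v := v) (w := c)
  rw [SimpleGraph.dist_eq_one_iff_adj.2 e] at h1
  omega

omit [Fintype X] in
theorem step {Γ : SimpleGraph X} (hc : Γ.Connected) {v c : X} {n : ℕ} (h : Γ.dist v c = n + 1) :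
    ∃ y, Γ.Adj v y ∧ Γ.dist y c = n := by
  obtain ⟨p, hp⟩ := hc.exists_walk_length_eq_dist v c
  cases p with
  | nil => simp at h
  | cons e q =>
    refine ⟨_, e, ?_⟩
    have h1 := SimpleGraph.dist_le q
    have h2 := adj_dist hc e c
    rw [SimpleGraph.Walk.length_cons] at hp
    omega

omit [Fintype X] in
theorem all_dist {Γ : SimpleGraph X} (hc : Γ.Connected) (c : X) :
    ∀ (t : ℕ) (v : X), Γ.dist v c = t → ∀ i ≤ t, ∃ u, Γ.dist u c = i := by
  intro t
  induction t with
  | zero => intro v h i hi; exact ⟨v, by omega⟩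
  | succ t ih =>
    intro v h i hi
    rcases Nat.lt_or_ge i (t + 1) with h1 | h1
    · obtain ⟨y, -, hy⟩ := step hc h
      exact ih y hy i (by omega)
    · exact ⟨v, by omega⟩

theorem sep_le_dist {Γ : SimpleGraph X} (hc : Γ.Connected) {d : ℕ}
    (hd : ∀ u v, Γ.Adj u v → (sep G u v).card ≤ d) (y : X) :
    ∀ (n : ℕ) (x : X), Γ.dist x y = n → (sep G x y).card ≤ n * d := by
  intro n
  induction n with
  | zero =>
    intro x h
    rw [hc.dist_eq_zero_iff] at h
    rw [h, sep_self]
    omega
  | succ n ih =>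
    intro x h
    obtain ⟨w, e, hw⟩ := step hc h
    have h1 := sep_tri (G := G) x w y
    have h2 := hd _ _ e
    have h3 := ih w hw
    rw [add_mul]
    omega

theorem cover {Γ : SimpleGraph X} (h : Inv G Γ) (hc : Γ.Connected) {d : ℕ}
    (hd : ∀ u v, Γ.Adj u v → (sep G u v).card ≤ d) (x : X) :
    Fintype.card X ≤ (sec (Γ.Adj x)).card * d + 1 := by
  classical
  have h1 : univ.erase x ⊆ (sec (Γ.Adj x)).biUnion fun y => sep G x y := by
    intro z hz
    have hz : z ≠ x := ne_of_mem_erase hz
    have h0 : Γ.dist x z ≠ 0 := fun e => hz (hc.dist_eq_zero_iff.1 e).symm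
    obtain ⟨n, hn⟩ := Nat.exists_eq_succ_of_ne_zero h0
    obtain ⟨y, e, hy⟩ := step hc hn
    refine mem_biUnion.2 ⟨y, mem_sec.2 e, mem_sep.2 fun o => ?_⟩
    have := h.dist_eq hc (show Orb G x z y z from o)
    omega
  have h2 := card_le_card h1
  have h3 := card_biUnion_le_card_mul (sec (Γ.Adj x)) (fun y => sep G x y) d
    fun y hy => hd _ _ (mem_sec.1 hy)
  rw [card_erase_of_mem (mem_univ x), card_univ] at h2
  omega

theorem ball {Γ : SimpleGraph X} (hc : Γ.Connected) {k t : ℕ} {c : X}
    (hk : ∀ u, k ≤ (sec (Γ.Adj u)).card) (ht : ∀ i ≤ t, ∃ u, Γ.dist u c = i) :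
    ∀ j, 3 * j ≤ t + 3 → j * (k + 1) ≤ (sec fun z => Γ.dist z c + 2 ≤ 3 * j).card := by
  classical
  intro j
  induction j with
  | zero => intro _; omega
  | succ j ih =>
    intro hj
    obtain ⟨v, hv⟩ := ht (3 * j) (by omega)
    have h1 := ih (by omega)
    have hN : ∀ z ∈ insert v (sec (Γ.Adj v)), Γ.dist z c ≤ 3 * j + 1 ∧ 3 * j ≤ Γ.dist z c + 1 := by
      intro z hz
      rcases mem_insert.1 hz with rfl | hz
      · omega
      · have e := mem_sec.1 hz
        have a1 := adj_dist hc e c
        have a2 := adj_dist hc e.symm c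
        omega
    have h2 : (insert v (sec (Γ.Adj v))).card = (sec (Γ.Adj v)).card + 1 :=
      card_insert_of_notMem fun hz => (mem_sec.1 hz).ne rfl
    have h3 : Disjoint (sec fun z => Γ.dist z c + 2 ≤ 3 * j) (insert v (sec (Γ.Adj v))) := by
      rw [disjoint_left]
      intro z h4 h5
      have := mem_sec.1 h4
      have := hN z h5
      omega
    have h4 : (sec fun z => Γ.dist z c + 2 ≤ 3 * j) ∪ insert v (sec (Γ.Adj v)) ⊆
        sec fun z => Γ.dist z c + 2 ≤ 3 * (j + 1) := by
      intro z hz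
      rw [mem_sec]
      rcases mem_union.1 hz with h5 | h5
      · have := mem_sec.1 h5
        omega
      · have := hN z h5
        omega
    have h5 := card_le_card h4
    rw [card_union_of_disjoint h3, h2] at h5
    have := hk v
    rw [add_mul]
    omega

theorem far {Γ : SimpleGraph X} (h : Inv G Γ) [IsPretransitive G X] (hc : Γ.Connected) {d : ℕ}
    (hd : ∀ u v, Γ.Adj u v → (sep G u v).card ≤ d) {x y : X} (h2 : 2 ≤ Γ.dist x y)
    (hb : (sec fun z => Γ.dist z y < Γ.dist x y).card ≤ 2 * (sep G x y).card) :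
    Fintype.card X ≤ 8 * d ^ 2 + 1 := by
  set t := Γ.dist x y with ht
  have h1 := ball hc (fun u => h.deg x u) (all_dist hc y t x rfl) ((t + 1) / 3) (by omega)
  have h3 : (sec fun z => Γ.dist z y + 2 ≤ 3 * ((t + 1) / 3)) ⊆ sec fun z => Γ.dist z y < t := by
    intro z hz
    have := mem_sec.1 hz
    rw [mem_sec]
    omega
  have h4 := card_le_card h3
  have h5 := sep_le_dist hc hd y t x rfl
  have h6 := cover h hc hd x
  set k := (sec (Γ.Adj x)).card
  have h7 : t ≤ 4 * ((t + 1) / 3) := by omega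
  have h8 : t * (k + 1) ≤ t * (8 * d) := by
    calc t * (k + 1) ≤ 4 * ((t + 1) / 3) * (k + 1) := Nat.mul_le_mul_right _ h7
      _ = 4 * ((t + 1) / 3 * (k + 1)) := by ring
      _ ≤ 4 * (2 * (t * d)) := by omega
      _ = t * (8 * d) := by ring
  have h9 : k + 1 ≤ 8 * d := Nat.le_of_mul_le_mul_left h8 (by omega)
  nlinarith

theorem big_sep {K : ℕ} (hK : ∀ z x : X, (sec (Orb G z x z)).card ≤ K) (x : X) :
    ∃ y, Fintype.card X ≤ (sep G x y).card + K := by
  classical
  by_contra hc
  push Not at hc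
  have h1 : ∑ y, (sep G x y).card = ∑ z, (univ.filter fun y => z ∈ sep G x y).card := by
    simp only [card_filter]
    rw [sum_comm]
    refine sum_congr rfl fun y _ => ?_
    rw [← card_filter]
    simp
  have h2 : ∀ z, Fintype.card X ≤ (univ.filter fun y => z ∈ sep G x y).card + K := by
    intro z
    have h3 : (univ : Finset X) ⊆ (univ.filter fun y => z ∈ sep G x y) ∪ sec (Orb G z x z) := by
      intro y _
      rw [mem_union, mem_filter, mem_sep, mem_sec]
      by_cases o : Orb G z x z y
      · exact Or.inr o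
      · exact Or.inl ⟨mem_univ _, fun o' => o (Orb.swap o')⟩
    have h4 := (card_le_card h3).trans (card_union_le _ _)
    have := hK z x
    rw [card_univ] at h4
    omega
  have h5 : ∑ y : X, ((sep G x y).card + K) < ∑ _y : X, Fintype.card X :=
    sum_lt_sum_of_nonempty ⟨x, mem_univ x⟩ fun y _ => hc y
  have h6 : ∑ _y : X, Fintype.card X ≤ ∑ z : X, ((univ.filter fun y => z ∈ sep G x y).card + K) :=
    sum_le_sum fun z _ => h2 z
  rw [sum_add_distrib] at h5 h6
  omega

theorem meet {S T : Finset X} (h : Fintype.card X < S.card + T.card) : ∃ z, z ∈ S ∧ z ∈ T := by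
  classical
  by_contra hc
  have h1 : Disjoint S T := disjoint_left.2 fun z a b => hc ⟨z, a, b⟩
  have h2 := card_le_univ (S ∪ T)
  rw [card_union_of_disjoint h1] at h2
  omega

theorem out_le [IsPretransitive G X] (a b u v : X) :
    (sec (Orb G a b u)).card ≤ (sec (Orb G a b v)).card := by
  obtain ⟨g, rfl⟩ := exists_smul_eq G u v
  exact card_le_smul g _ _ fun z hz => mem_sec.2 ((mem_sec.1 hz).smul g)

theorem in_out [IsPretransitive G X] (a b : X) :
    (sec (Orb G a b a)).card ≤ (sec (Orb G b a a)).card := by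
  classical
  have h1 : ∑ u, (sec (Orb G a b u)).card = ∑ v, (sec (Orb G b a v)).card := by
    simp only [sec, card_filter]
    rw [sum_comm]
    refine sum_congr rfl fun y _ => sum_congr rfl fun z _ => ?_
    have : Orb G a b z y ↔ Orb G b a y z := ⟨Orb.swap, Orb.swap⟩
    simp [this]
  by_contra hc
  have h2 : ∑ v, (sec (Orb G b a v)).card < ∑ u, (sec (Orb G a b u)).card :=
    sum_lt_sum_of_nonempty ⟨a, mem_univ a⟩ fun y _ => by
      have := out_le (G := G) b a y a
      have := out_le (G := G) a b a y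
      omega
  omega

/-- the graph of an orbit of pairs -/
def gr (G : Type) [Group G] [MulAction G X] (a b : X) : SimpleGraph X where
  Adj x y := x ≠ y ∧ (Orb G a b x y ∨ Orb G a b y x)
  symm := ⟨fun _ _ h => ⟨h.1.symm, h.2.symm⟩⟩
  loopless := ⟨fun _ h => h.1 rfl⟩

/-- the complementary graph of an orbit of pairs -/
def cogr (G : Type) [Group G] [MulAction G X] (a b : X) : SimpleGraph X where
  Adj x y := x ≠ y ∧ ¬ Orb G a b x y ∧ ¬ Orb G a b y x
  symm := ⟨fun _ _ h => ⟨h.1.symm, h.2.symm⟩⟩
  loopless := ⟨fun _ h => h.1 rfl⟩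

theorem core (hp : IsPreprimitive G X) (h2 : ¬ IsMultiplyPretransitive G X 2) {a b : X}
    (hab : a ≠ b) : Fintype.card X ≤ 8 * (sep G a b).card ^ 2 + 1 := by
  classical
  have := hp.toIsPretransitive
  set d := (sep G a b).card with hdd
  have hi : Inv G (gr G a b) := fun g x y e =>
    ⟨fun q => e.1 (MulAction.injective g q), e.2.imp (fun o => o.smul g) fun o => o.smul g⟩
  have hc := hi.conn hp (a := a) (b := b) ⟨hab, Or.inl ⟨1, one_smul _ _, one_smul _ _⟩⟩
  have hd : ∀ u v, (gr G a b).Adj u v → (sep G u v).card ≤ d := by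
    intro u v e
    rcases e.2 with o | o
    · exact sep_orb o
    · rw [sep_symm]
      exact sep_orb o
  have hm : 2 ≤ Fintype.card X := Fintype.one_lt_card_iff.2 ⟨a, b, hab⟩
  obtain ⟨⟨z, x⟩, -, hK⟩ := exists_max_image (univ : Finset (X × X))
    (fun q => (sec (Orb G q.1 q.2 q.1)).card) ⟨(a, b), mem_univ _⟩
  simp only at hK
  set K := (sec (Orb G z x z)).card with hKd
  obtain ⟨y, hy⟩ := big_sep (G := G) (K := K) (fun u v => hK (u, v) (mem_univ _)) z
  rcases Nat.lt_or_ge (Fintype.card X) (2 * K) with hB | hA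
  swap
  · have h3 := sep_le_dist hc hd y _ z rfl
    rcases Nat.lt_or_ge ((gr G a b).dist z y) 2 with h4 | h4
    · have h5 : (gr G a b).dist z y * d ≤ 1 * d := Nat.mul_le_mul_right _ (by omega)
      nlinarith [Nat.le_self_pow (n := 2) (by norm_num) d]
    · refine far hi hc hd h4 ?_
      have := card_le_univ (sec fun w => (gr G a b).dist w y < (gr G a b).dist z y)
      omega
  have hzx : z ≠ x := by
    rintro rfl
    have : sec (Orb G z z z) ⊆ {z} := by
      intro w hw
      obtain ⟨g, h3, h4⟩ := mem_sec.1 hw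
      rw [mem_singleton, ← h4, h3]
    have := card_le_card this
    rw [card_singleton] at this
    omega
  have hout : ∀ u, (sec (Orb G z x u)).card = K := fun u =>
    le_antisymm (out_le z x u z) (out_le z x z u)
  have hsym : ∀ u v, Orb G z x u v → Orb G z x v u := by
    obtain ⟨w, h3, h4⟩ := meet (S := sec (Orb G z x z)) (T := sec (Orb G x z z))
      (by have := in_out (G := G) z x; omega)
    intro u v o
    exact ((mem_sec.1 h4).swap.trans ((mem_sec.1 h3).symm.trans o).swap)
  have hr : Fintype.card X ≤ 2 * (sep G z x).card + K := by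
    obtain ⟨w, h3, h4⟩ := meet (S := sec (Orb G z x z)) (T := sec (Orb G z x y))
      (by rw [hout, hout]; omega)
    have h5 := sep_orb (mem_sec.1 h3)
    have h6 := sep_orb (mem_sec.1 h4)
    have h7 := sep_tri (G := G) z w y
    rw [sep_symm w y] at h7
    omega
  by_cases ho : Orb G z x a b
  · have hi' : Inv G (cogr G z x) := fun g u v e =>
      ⟨fun q => e.1 (MulAction.injective g q),
        fun o => e.2.1 (by simpa using o.smul g⁻¹), fun o => e.2.2 (by simpa using o.smul g⁻¹)⟩
    obtain ⟨u, v, e⟩ : ∃ u v, (cogr G z x).Adj u v := by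
      by_contra hn
      apply h2
      rw [is_two_pretransitive_iff]
      have h3 : ∀ u v, u ≠ v → Orb G z x u v := by
        intro u v huv
        by_contra h4
        exact hn ⟨u, v, huv, h4, fun o => h4 (hsym _ _ o)⟩
      intro p q r s hpq hrs
      exact (h3 p q hpq).symm.trans (h3 r s hrs)
    have hc' := hi'.conn hp e
    have h1 : Orb G z x z x := ⟨1, one_smul _ _, one_smul _ _⟩
    have h3 : 2 ≤ (cogr G z x).dist x z := by
      have a0 : (cogr G z x).dist x z ≠ 0 := fun q => hzx (hc'.dist_eq_zero_iff.1 q).symm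
      have a1 : (cogr G z x).dist x z ≠ 1 := fun q =>
        (SimpleGraph.dist_eq_one_iff_adj.1 q).2.2 h1
      omega
    obtain ⟨w, hw⟩ := all_dist hc' z _ x rfl 2 h3
    have h4 : Orb G z x w z := by
      by_contra h5
      have a0 : w ≠ z := by
        rintro rfl
        simp at hw
      have := SimpleGraph.dist_eq_one_iff_adj.2
        (show (cogr G z x).Adj w z from ⟨a0, h5, fun o => h5 (hsym _ _ o)⟩)
      omega
    set k := (sec ((cogr G z x).Adj z)).card with hk
    have h5 : sec (Orb G z x z) ⊆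
        (sec ((cogr G z x).Adj z)).biUnion fun s => sec ((cogr G z x).Adj s) := by
      intro s hs
      have a1 := hi'.dist_eq hc' (h4.symm.trans (mem_sec.1 hs))
      rw [hw] at a1
      obtain ⟨p, e1, a2⟩ := step hc' a1
      exact mem_biUnion.2 ⟨p, mem_sec.2 e1, mem_sec.2 (SimpleGraph.dist_eq_one_iff_adj.1 a2)⟩
    have h6 := (card_le_card h5).trans
      (card_biUnion_le_card_mul _ _ k fun s _ => hi'.deg s z)
    have h7 : Disjoint (insert z (sec ((cogr G z x).Adj z))) (sec (Orb G z x z)) := by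
      rw [disjoint_left]
      intro s a1 a2
      rcases mem_insert.1 a1 with rfl | a1
      · exact (mem_sec.1 a2).ne hzx rfl
      · exact (mem_sec.1 a1).2.1 (mem_sec.1 a2)
    have h8 := card_le_univ (insert z (sec ((cogr G z x).Adj z)) ∪ sec (Orb G z x z))
    rw [card_union_of_disjoint h7,
      card_insert_of_notMem fun hz => (mem_sec.1 hz).ne rfl] at h8
    have h9 := sep_orb ho.symm
    have a1 : k + 1 ≤ 2 * d := by omega
    have a2 : k * k ≤ (2 * d) * (2 * d) := Nat.mul_le_mul (by omega) (by omega)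
    nlinarith [Nat.le_self_pow (n := 2) (by norm_num) d]
  · have h3 : 2 ≤ (gr G a b).dist x z := by
      have a0 : (gr G a b).dist x z ≠ 0 := fun q => hzx (hc.dist_eq_zero_iff.1 q).symm
      have a1 : (gr G a b).dist x z ≠ 1 := by
        intro q
        rcases (SimpleGraph.dist_eq_one_iff_adj.1 q).2 with o | o
        · exact ho (hsym _ _ o.swap.symm)
        · exact ho o.symm
      omega
    refine far hi hc hd h3 ?_
    have h7 : Disjoint (sec fun w => (gr G a b).dist w z < (gr G a b).dist x z)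
        (sec (Orb G z x z)) := by
      rw [disjoint_left]
      intro s a1 a2
      have a3 := hi.dist_eq hc (mem_sec.1 a2).swap
      have := mem_sec.1 a1
      omega
    have h8 := card_le_univ
      ((sec fun w => (gr G a b).dist w z < (gr G a b).dist x z) ∪ sec (Orb G z x z))
    rw [card_union_of_disjoint h7] at h8
    rw [sep_symm x z]
    omega

theorem rowBAB : RowBAB := by
  intro G X _ _ _ _ _ hp h2 g ⟨x, hx⟩
  have h1 := core hp h2 hx.symm
  have h3 : (sep G x (g • x)).card ≤ mv X g := by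
    refine card_le_card fun z hz => ?_
    rw [mem_filter]
    exact ⟨mem_univ _, fun e => mem_sep.1 hz ⟨g, rfl, e⟩⟩
  have := Nat.pow_le_pow_left h3 2
  omega

end Pool.Agent.MP_db5b97_nt.H86
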